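import Pool.Agent.HLV.Final

/-!
# MP_21f263_lc: the levels of transitive sofic shifts and of biunitary submonoids

For the language `L` of a transitive sofic shift (factorial and irreducible) and for biunitary
submonoids the full level `B (n + 1)` and the half level above it coincide, and both are equivalent to
membership of the complement in the half level above `B n`.
-/

namespace Pool.Agent.Helper70.Kept.ShiftLevels

open Pool.Agent.DD Pool.Agent.HLV

theorem result (A : Type) [Finite A] (L : Lang A) (h : (Factorial L ∧ Irred L) ∨ Biunitary L)
    (n : ℕ) :
    (L ∈ B A (n + 1) ↔ Lᶜ ∈ Half (B A n)) ∧ (L ∈ Half (B A (n + 1)) ↔ Lᶜ ∈ Half (B A n)) :=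
  final_collapse h n

end Pool.Agent.Helper70.Kept.ShiftLevels
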